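import Pool.Agent.H548.SC.Defs

/-!
SC-ABS, first part: sums over subsets of `O ∪ L` of product form, sums over line-constant sets,
push-forwards.
-/

set_option autoImplicit false
open Classical Finset

namespace Pool.Agent.R358.SC
open Pool.Agent.H548.SC

section
variable {α : Type}

lemma inter_union_left {O L S S' : Finset α} (hd : Disjoint O L) (h1 : S ⊆ O) (h2 : S' ⊆ L) :
    (S ∪ S') ∩ O = S := by
  ext a
  simp only [mem_inter, mem_union]
  constructor
  · rintro ⟨h | h, hO⟩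
    · exact h
    · exact absurd (h2 h) (Finset.disjoint_left.1 hd hO)
  · intro h
    exact ⟨Or.inl h, h1 h⟩

lemma inter_union_right {O L S S' : Finset α} (hd : Disjoint O L) (h1 : S ⊆ O) (h2 : S' ⊆ L) :
    (S ∪ S') ∩ L = S' := by
  ext a
  simp only [mem_inter, mem_union]
  constructor
  · rintro ⟨h | h, hL⟩
    · exact absurd hL (Finset.disjoint_left.1 hd (h1 h))
    · exact h
  · intro h
    exact ⟨Or.inr h, h2 h⟩

lemma split_eq {O L B : Finset α} (h : B ⊆ O ∪ L) : (B ∩ O) ∪ (B ∩ L) = B := by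
  rw [← Finset.inter_union_distrib_left]
  exact Finset.inter_eq_left.2 h

/-- Sums over subsets of `O ∪ L` of product form. -/
lemma sum_prod_form (t : α → ℝ) (O L : Finset α) (hd : Disjoint O L)
    (Q Q1 Q2 : Finset α → Prop) [DecidablePred Q] [DecidablePred Q1] [DecidablePred Q2]
    (hQ : ∀ B, Q B ↔ (Q1 (B ∩ O) ∧ Q2 (B ∩ L))) :
    (∑ B ∈ (O ∪ L).powerset with Q B, ∏ a ∈ B, t a) =
      (∑ S ∈ O.powerset with Q1 S, ∏ a ∈ S, t a) *
        (∑ S ∈ L.powerset with Q2 S, ∏ a ∈ S, t a) := by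
  rw [Finset.sum_mul_sum, ← Finset.sum_product']
  refine Finset.sum_nbij' (fun B => (B ∩ O, B ∩ L)) (fun p => p.1 ∪ p.2) ?_ ?_ ?_ ?_ ?_
  · intro B hB
    simp only [mem_filter, mem_powerset, hQ] at hB
    simp only [mem_product, mem_filter, mem_powerset]
    exact ⟨⟨Finset.inter_subset_right, hB.2.1⟩, Finset.inter_subset_right, hB.2.2⟩
  · intro p hp
    simp only [mem_product, mem_filter, mem_powerset] at hp
    obtain ⟨⟨h1, q1⟩, h2, q2⟩ := hp
    simp only [mem_filter, mem_powerset, hQ]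
    rw [inter_union_left hd h1 h2, inter_union_right hd h1 h2]
    exact ⟨Finset.union_subset_union h1 h2, q1, q2⟩
  · intro B hB
    simp only [mem_filter, mem_powerset] at hB
    exact split_eq hB.1
  · intro p hp
    simp only [mem_product, mem_filter, mem_powerset] at hp
    obtain ⟨⟨h1, q1⟩, h2, q2⟩ := hp
    exact Prod.ext (inter_union_left hd h1 h2) (inter_union_right hd h1 h2)
  · intro B hB
    simp only [mem_filter, mem_powerset] at hB
    have hdd : Disjoint (B ∩ O) (B ∩ L) :=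
      Finset.disjoint_of_subset_left Finset.inter_subset_right
        (Finset.disjoint_of_subset_right Finset.inter_subset_right hd)
    show ∏ a ∈ B, t a = (∏ a ∈ B ∩ O, t a) * ∏ a ∈ B ∩ L, t a
    rw [← Finset.prod_union hdd, split_eq hB.1]

/-- Sum over the subsets of a subset. -/
lemma sum_sub (t : α → ℝ) (L X : Finset α) (h : X ⊆ L) (Q : Finset α → Prop)
    [DecidablePred Q] (hQ : ∀ S, Q S ↔ S ⊆ X) :
    (∑ S ∈ L.powerset with Q S, ∏ a ∈ S, t a) = ∏ a ∈ X, (1 + t a) := by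
  rw [Finset.prod_one_add]
  refine Finset.sum_congr ?_ (fun _ _ => rfl)
  ext S
  simp only [mem_filter, mem_powerset, hQ]
  exact ⟨fun hS => hS.2, fun hS => ⟨hS.trans h, hS⟩⟩

lemma sum_all (t : α → ℝ) (L : Finset α) (Q : Finset α → Prop)
    [DecidablePred Q] (hQ : ∀ S, Q S) :
    (∑ S ∈ L.powerset with Q S, ∏ a ∈ S, t a) = ∏ a ∈ L, (1 + t a) := by
  rw [Finset.prod_one_add]
  refine Finset.sum_congr ?_ (fun _ _ => rfl)
  ext S
  simp [hQ]

/-- Sum over the nonempty subsets. -/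
lemma sum_nonempty (t : α → ℝ) (O : Finset α) (Q : Finset α → Prop)
    [DecidablePred Q] (hQ : ∀ S, Q S ↔ S.Nonempty) :
    (∑ S ∈ O.powerset with Q S, ∏ a ∈ S, t a) = (∏ a ∈ O, (1 + t a)) - 1 := by
  have h : (O.powerset.filter Q) = O.powerset.erase ∅ := by
    ext S
    simp only [mem_filter, mem_powerset, mem_erase, hQ, Finset.nonempty_iff_ne_empty]
    exact ⟨fun hS => ⟨hS.2, hS.1⟩, fun hS => ⟨hS.2, hS.1⟩⟩
  rw [h, Finset.sum_erase_eq_sub (Finset.empty_mem_powerset O), Finset.prod_one_add]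
  simp

/-- Sum over the nonempty subsets on which `π` has the constant value `j`. -/
lemma sum_value {J : Type} (t : α → ℝ) (O : Finset α) (π : α → J) (j : J) :
    (∑ S ∈ O.powerset, if (S.Nonempty ∧ ∀ x ∈ S, π x = j) then ∏ a ∈ S, t a else 0) =
      (∏ a ∈ O with π a = j, (1 + t a)) - 1 := by
  rw [← sum_nonempty t _ (fun S => S.Nonempty) (fun S => Iff.rfl), ← Finset.sum_filter]
  refine Finset.sum_congr ?_ (fun _ _ => rfl)
  ext S
  simp only [mem_filter, mem_powerset]
  constructor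
  · rintro ⟨h1, h2, h3⟩
    refine ⟨fun x hx => ?_, h2⟩
    rw [mem_filter]
    exact ⟨h1 hx, h3 x hx⟩
  · rintro ⟨h1, h2⟩
    refine ⟨fun x hx => (mem_filter.1 (h1 hx)).1, h2, fun x hx => (mem_filter.1 (h1 hx)).2⟩

/-- Sum over the nonempty subsets on which `π` is constant. -/
lemma sum_const {J : Type} [Fintype J] (t : α → ℝ) (O : Finset α) (π : α → J)
    (Q : Finset α → Prop) [DecidablePred Q]
    (hQ : ∀ S, Q S ↔ (S.Nonempty ∧ ∀ x ∈ S, ∀ y ∈ S, π x = π y)) :
    (∑ S ∈ O.powerset with Q S, ∏ a ∈ S, t a) =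
      ∑ j : J, ((∏ a ∈ O with π a = j, (1 + t a)) - 1) := by
  have h1 : ∑ j : J, ((∏ a ∈ O with π a = j, (1 + t a)) - 1) =
      ∑ j : J, ∑ S ∈ O.powerset,
        (if (S.Nonempty ∧ ∀ x ∈ S, π x = j) then ∏ a ∈ S, t a else 0) :=
    Finset.sum_congr rfl (fun j _ => (sum_value t O π j).symm)
  rw [h1, Finset.sum_comm, Finset.sum_filter]
  refine Finset.sum_congr rfl (fun S _ => ?_)
  by_cases hS : S.Nonempty
  · obtain ⟨x0, hx0⟩ := hS
    by_cases hc : ∀ x ∈ S, ∀ y ∈ S, π x = π y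
    · rw [if_pos ((hQ S).2 ⟨⟨x0, hx0⟩, hc⟩), Finset.sum_eq_single (π x0)]
      · rw [if_pos ⟨⟨x0, hx0⟩, fun x hx => hc x hx x0 hx0⟩]
      · intro j _ hj
        rw [if_neg]
        rintro ⟨_, h⟩
        exact hj (h x0 hx0).symm
      · intro h
        exact absurd (Finset.mem_univ _) h
    · rw [if_neg (fun h => hc ((hQ S).1 h).2)]
      symm
      refine Finset.sum_eq_zero (fun j _ => ?_)
      rw [if_neg]
      rintro ⟨_, h⟩
      exact hc (fun x hx y hy => (h x hx).trans (h y hy).symm)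
  · rw [if_neg (fun h => hS ((hQ S).1 h).1)]
    symm
    refine Finset.sum_eq_zero (fun j _ => ?_)
    rw [if_neg (fun h => hS h.1)]

/-- Sum over the sets `insert g S` with `g` outside `Le ∪ Lf` and `S ⊆ Le ∩ Lf`. -/
lemma sum_insert (t : α → ℝ) (L Le Lf : Finset α) (he : Le ⊆ L) (Q : Finset α → Prop)
    [DecidablePred Q]
    (hQ : ∀ S, Q S ↔ ∃ g ∈ L \ (Le ∪ Lf), g ∈ S ∧ S ⊆ insert g (Le ∩ Lf)) :
    (∑ S ∈ L.powerset with Q S, ∏ a ∈ S, t a) =
      (∏ a ∈ Le ∩ Lf, (1 + t a)) * ∑ g ∈ L \ (Le ∪ Lf), t g := by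
  rw [Finset.prod_one_add, Finset.sum_mul_sum, ← Finset.sum_product']
  symm
  refine Finset.sum_nbij (fun p => insert p.2 p.1) ?_ ?_ ?_ ?_
  · rintro ⟨S, g⟩ hp
    simp only [mem_product, mem_powerset] at hp
    obtain ⟨h1, h2⟩ := hp
    simp only [mem_filter, mem_powerset, hQ]
    refine ⟨?_, g, h2, mem_insert_self g S, Finset.insert_subset_insert g h1⟩
    refine Finset.insert_subset (mem_sdiff.1 h2).1 ?_
    exact h1.trans (Finset.inter_subset_left.trans he)
  · rintro ⟨S, g⟩ hp ⟨S', g'⟩ hp' heq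
    simp only [Finset.coe_product, Set.mem_prod, Finset.mem_coe, mem_powerset] at hp hp'
    obtain ⟨h1, h2⟩ := hp
    obtain ⟨h1', h2'⟩ := hp'
    simp only at heq
    have hg : g ∉ Le ∩ Lf := fun h => (mem_sdiff.1 h2).2 (mem_union_left _ (mem_inter.1 h).1)
    have hg' : g' ∉ Le ∩ Lf := fun h => (mem_sdiff.1 h2').2 (mem_union_left _ (mem_inter.1 h).1)
    have e1 : g = g' := by
      have : g ∈ insert g' S' := by
        rw [← heq]
        exact mem_insert_self g S
      rcases mem_insert.1 this with h | h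
      · exact h
      · exact absurd (h1' h) hg
    subst e1
    have e2 : S = S' := by
      have a1 : (insert g S).erase g = S := Finset.erase_insert (fun h => hg (h1 h))
      have a2 : (insert g S').erase g = S' := Finset.erase_insert (fun h => hg (h1' h))
      rw [← a1, ← a2, heq]
    rw [e2]
  · intro S hS
    simp only [Finset.coe_filter, mem_powerset, Set.mem_ofPred_eq, hQ] at hS
    obtain ⟨h1, g, h2, h3, h4⟩ := hS
    refine ⟨(S.erase g, g), ?_, ?_⟩
    · simp only [Finset.coe_product, Set.mem_prod, Finset.mem_coe, mem_powerset]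
      refine ⟨fun x hx => ?_, h2⟩
      have := h4 (Finset.mem_of_mem_erase hx)
      rcases mem_insert.1 this with h | h
      · exact absurd h (Finset.ne_of_mem_erase hx)
      · exact h
    · exact Finset.insert_erase h3
  · rintro ⟨S, g⟩ hp
    simp only [mem_product, mem_powerset] at hp
    obtain ⟨h1, h2⟩ := hp
    have hg : g ∉ S := fun h => (mem_sdiff.1 h2).2 (mem_union_left _ (mem_inter.1 (h1 h)).1)
    show (∏ a ∈ S, t a) * t g = ∏ a ∈ insert g S, t a
    rw [Finset.prod_insert hg, mul_comm]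

lemma one_le_prod (t : α → ℝ) (ht : ∀ x, 0 ≤ t x) (X : Finset α) : 1 ≤ ∏ a ∈ X, (1 + t a) := by
  induction X using Finset.induction_on with
  | empty => simp
  | insert a s ha ih =>
    rw [Finset.prod_insert ha]
    nlinarith [ht a]

/-- `∏ (1 + t) * (1 - ∑ t) ≤ 1`. -/
lemma prod_mul_le (t : α → ℝ) (ht : ∀ x, 0 ≤ t x) (X : Finset α) :
    (∏ a ∈ X, (1 + t a)) * (1 - ∑ a ∈ X, t a) ≤ 1 := by
  induction X using Finset.induction_on with
  | empty => simp
  | insert a s ha ih =>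
    rw [Finset.prod_insert ha, Finset.sum_insert ha]
    have h1 := one_le_prod t ht s
    have h2 : 0 ≤ ∑ b ∈ s, t b := Finset.sum_nonneg (fun b _ => ht b)
    have h3 := ht a
    have h4 : (1 + t a) * (∏ b ∈ s, (1 + t b)) * (1 - (t a + ∑ b ∈ s, t b)) =
        (∏ b ∈ s, (1 + t b)) * (1 - ∑ b ∈ s, t b) -
          (∏ b ∈ s, (1 + t b)) * (t a * (∑ b ∈ s, t b) + t a * t a) := by ring
    rw [h4]
    have h5 : 0 ≤ (∏ b ∈ s, (1 + t b)) * (t a * (∑ b ∈ s, t b) + t a * t a) := by positivity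
    linarith

/-- Product identity for the four parts of `L`. -/
lemma prod_parts (t : α → ℝ) (L Le Lf : Finset α) (he : Le ⊆ L) (hf : Lf ⊆ L) :
    (∏ a ∈ L, (1 + t a)) * (∏ a ∈ Le ∩ Lf, (1 + t a)) =
      (∏ a ∈ Le, (1 + t a)) * (∏ a ∈ Lf, (1 + t a)) * ∏ a ∈ L \ (Le ∪ Lf), (1 + t a) := by
  have h1 := Finset.prod_sdiff (f := fun a => 1 + t a) (Finset.union_subset he hf)
  have h2 := Finset.prod_union_inter (s₁ := Le) (s₂ := Lf) (f := fun a => 1 + t a)
  rw [← h1]
  linear_combination (∏ a ∈ L \ (Le ∪ Lf), (1 + t a)) * h2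

lemma prod_le_prod_sub (t : α → ℝ) (ht : ∀ x, 0 ≤ t x) (X Y : Finset α) (h : X ⊆ Y) :
    ∏ a ∈ X, (1 + t a) ≤ ∏ a ∈ Y, (1 + t a) := by
  rw [← Finset.prod_sdiff h]
  have h1 := one_le_prod t ht (Y \ X)
  have h2 := one_le_prod t ht X
  nlinarith
end

section grid
variable {ι κ : Type} [Fintype ι] [Fintype κ]

/-- The sum of `c x * c y` over unordered pairs of cells in general position as a sum over
two-element sets. -/
lemma K_eq (c : ι × κ → ℝ) (Q : Finset (ι × κ) → Prop) [DecidablePred Q]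
    (hQ : ∀ W, Q W ↔ ∃ x y, gen x y ∧ W = {x, y}) :
    (∑ W ∈ (univ : Finset (Finset (ι × κ))) with Q W, wt c W) = K c := by
  have h1 : K c = (1 / 2) * ∑ p ∈ (univ : Finset ((ι × κ) × (ι × κ))) with gen p.1 p.2,
      c p.1 * c p.2 := by
    unfold K
    rw [Finset.sum_filter]
    exact congrArg (fun z => (1 / 2 : ℝ) * z) (Fintype.sum_prod_type
      (fun p : (ι × κ) × (ι × κ) => if gen p.1 p.2 then c p.1 * c p.2 else 0)).symm
  have hmaps : ∀ p ∈ (univ : Finset ((ι × κ) × (ι × κ))).filter (fun p => gen p.1 p.2),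
      ({p.1, p.2} : Finset (ι × κ)) ∈
        (univ : Finset (Finset (ι × κ))).filter Q := by
    intro p hp
    rw [mem_filter] at hp ⊢
    exact ⟨mem_univ _, (hQ _).2 ⟨p.1, p.2, hp.2, rfl⟩⟩
  rw [h1, ← Finset.sum_fiberwise_of_maps_to hmaps, Finset.mul_sum]
  refine Finset.sum_congr rfl (fun W hW => ?_)
  rw [mem_filter, hQ] at hW
  obtain ⟨_, x, y, hxy, rfl⟩ := hW
  have hne : x ≠ y := fun h => hxy.1 (congrArg Prod.fst h)
  have hset : ((univ : Finset ((ι × κ) × (ι × κ))).filter (fun p => gen p.1 p.2)).filter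
      (fun p => ({p.1, p.2} : Finset (ι × κ)) = {x, y}) = {(x, y), (y, x)} := by
    ext ⟨a, b⟩
    simp only [mem_filter, mem_univ, true_and, mem_insert, mem_singleton, Prod.mk.injEq]
    constructor
    · rintro ⟨hg, he⟩
      have hab : a ≠ b := fun h => hg.1 (congrArg Prod.fst h)
      have ha : a ∈ ({x, y} : Finset (ι × κ)) := by
        rw [← he]
        simp
      have hb : b ∈ ({x, y} : Finset (ι × κ)) := by
        rw [← he]
        simp
      simp only [mem_insert, mem_singleton] at ha hb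
      rcases ha with ha | ha <;> rcases hb with hb | hb
      · exact absurd (ha.trans hb.symm) hab
      · exact Or.inl ⟨ha, hb⟩
      · exact Or.inr ⟨ha, hb⟩
      · exact absurd (ha.trans hb.symm) hab
    · rintro (⟨rfl, rfl⟩ | ⟨rfl, rfl⟩)
      · exact ⟨hxy, rfl⟩
      · exact ⟨⟨fun h => hxy.1 h.symm, fun h => hxy.2 h.symm⟩, Finset.pair_comm _ _⟩
  rw [hset, Finset.sum_pair (fun h => hne (congrArg Prod.fst h))]
  show wt c {x, y} = 1 / 2 * (c x * c y + c y * c x)
  unfold wt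
  rw [Finset.prod_pair hne]
  ring

omit [Fintype ι] [Fintype κ] in
lemma cellWt_nonneg {α : Type} (t : α → ℝ) (ht : ∀ x, 0 ≤ t x) (O : Finset α) (row : α → ι)
    (col : α → κ) (x : ι × κ) : 0 ≤ cellWt t O row col x := by
  unfold cellWt
  have := one_le_prod t ht (O.filter (fun a => (row a, col a) = x))
  linarith

omit [Fintype ι] [Fintype κ] in
lemma one_add_cellWt {α : Type} (t : α → ℝ) (O : Finset α) (row : α → ι)
    (col : α → κ) (x : ι × κ) :
    1 + cellWt t O row col x = ∏ a ∈ O with (row a, col a) = x, (1 + t a) := by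
  unfold cellWt
  ring

lemma prod_cells {α : Type} (t : α → ℝ) (O : Finset α) (row : α → ι) (col : α → κ) :
    (∏ x, (1 + cellWt t O row col x)) = ∏ a ∈ O, (1 + t a) := by
  rw [← Finset.prod_fiberwise O (fun a => (row a, col a)) (fun a => 1 + t a)]
  exact Finset.prod_congr rfl (fun x _ => one_add_cellWt t O row col x)

omit [Fintype ι] in
lemma prod_row {α : Type} (t : α → ℝ) (O : Finset α) (row : α → ι) (col : α → κ) (i : ι) :
    (∏ k : κ, (1 + cellWt t O row col (i, k))) = ∏ a ∈ O with row a = i, (1 + t a) := by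
  rw [← Finset.prod_fiberwise (O.filter (fun a => row a = i)) col (fun a => 1 + t a)]
  refine Finset.prod_congr rfl (fun k _ => ?_)
  rw [one_add_cellWt, Finset.filter_filter]
  refine Finset.prod_congr ?_ (fun _ _ => rfl)
  ext a
  simp only [mem_filter, Prod.mk.injEq]

omit [Fintype κ] in
lemma prod_col {α : Type} (t : α → ℝ) (O : Finset α) (row : α → ι) (col : α → κ) (k : κ) :
    (∏ i : ι, (1 + cellWt t O row col (i, k))) = ∏ a ∈ O with col a = k, (1 + t a) := by
  rw [← Finset.prod_fiberwise (O.filter (fun a => col a = k)) row (fun a => 1 + t a)]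
  refine Finset.prod_congr rfl (fun i _ => ?_)
  rw [one_add_cellWt, Finset.filter_filter]
  refine Finset.prod_congr ?_ (fun _ _ => rfl)
  ext a
  simp only [mem_filter, Prod.mk.injEq]
  tauto
end grid

end Pool.Agent.R358.SC
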