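import Pool.Agent.R358.SC.Abs1

/-!
SC-ABS: the abstract correlation inequality from the grid inequality and the push-forward.
-/

set_option autoImplicit false
open Classical Finset

namespace Pool.Agent.R358.SC
open Pool.Agent.H548.SC

lemma ind_le (w : ℝ) (hw : 0 ≤ w) (P0 P2 P3 P23 P4 P5 N : Prop)
    [Decidable P0] [Decidable P2] [Decidable P3] [Decidable P23] [Decidable P4] [Decidable P5]
    [Decidable N]
    (b0 : P0 → N) (b02 : P0 → ¬ P2) (b03 : P0 → ¬ P3) (b04 : P0 → ¬ P4) (b05 : P0 → ¬ P5)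
    (b2 : P2 → N) (b3 : P3 → N) (b4 : P4 → N) (b5 : P5 → N)
    (b23 : P2 → P3 → P23)
    (b42 : P4 → ¬ P2) (b43 : P4 → ¬ P3) (b45 : P4 → ¬ P5) (b52 : P5 → ¬ P2) (b53 : P5 → ¬ P3) :
    (if P0 then w else 0) + (if P2 then w else 0) + (if P3 then w else 0) -
      (if P23 then w else 0) + (if P4 then w else 0) + (if P5 then w else 0) ≤
        if N then w else 0 := by
  have k23 : 0 ≤ (if P23 then w else 0) := by split_ifs <;> linarith
  by_cases h0 : P0
  · have n := b0 h0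
    have n2 := b02 h0
    have n3 := b03 h0
    have n4 := b04 h0
    have n5 := b05 h0
    rw [if_pos h0, if_neg n2, if_neg n3, if_neg n4, if_neg n5, if_pos n]
    linarith
  · by_cases h4 : P4
    · rw [if_neg h0, if_neg (b42 h4), if_neg (b43 h4), if_pos h4, if_neg (b45 h4), if_pos (b4 h4)]
      linarith
    · by_cases h5 : P5
      · rw [if_neg h0, if_neg (b52 h5), if_neg (b53 h5), if_neg h4, if_pos h5, if_pos (b5 h5)]
        linarith
      · rw [if_neg h0, if_neg h4, if_neg h5]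
        by_cases h2 : P2
        · by_cases h3 : P3
          · rw [if_pos h2, if_pos h3, if_pos (b23 h2 h3), if_pos (b2 h2)]
            linarith
          · rw [if_pos h2, if_neg h3, if_pos (b2 h2)]
            linarith
        · by_cases h3 : P3
          · rw [if_neg h2, if_pos h3, if_pos (b3 h3)]
            linarith
          · rw [if_neg h2, if_neg h3]
            have kN : 0 ≤ (if N then w else 0) := by split_ifs <;> linarith
            linarith

lemma final_ineq (a ae af al am γ E F T K P S11 S00 S10 S01 : ℝ)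
    (ha : 1 ≤ a) (hae : 1 ≤ ae) (haf : 1 ≤ af) (ham : 1 ≤ am) (hγ : 0 ≤ γ)
    (hT : 0 ≤ T) (hK : 0 ≤ K) (hE : 0 ≤ E) (hF : 0 ≤ F) (hP : 1 ≤ P)
    (hprod : a * al = ae * af * am) (haea : ae ≤ a) (hafa : af ≤ a)
    (hEP : E ≤ P - 1) (hFP : F ≤ P - 1) (hamγ : am * (1 - γ) ≤ 1)
    (hgrid : (P - 1) * (T - K) ≤ E * F)
    (h11 : S11 ≤ a * (P - 1)) (h000 : 0 ≤ S00)
    (h00 : S00 ≤ a * (P - 1) - ae * E - af * F + al * T - al * K - al * γ * T)
    (h10 : a * (P - 1) - ae * E ≤ S10) (h01 : a * (P - 1) - af * F ≤ S01) :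
    S11 * S00 ≤ S10 * S01 := by
  have hP1 : 0 ≤ P - 1 := by linarith
  have hY : 0 ≤ a * (P - 1) := mul_nonneg (by linarith) hP1
  have hu : 0 ≤ a * (P - 1) - ae * E := by
    have := mul_le_mul haea hEP hE (by linarith)
    linarith
  have hv : 0 ≤ a * (P - 1) - af * F := by
    have := mul_le_mul hafa hFP hF (by linarith)
    linarith
  have key : am * (P - 1) * (T - K - γ * T) ≤ E * F := by
    by_cases hD : T - K - γ * T ≤ 0
    · have h1 : am * (P - 1) * (T - K - γ * T) ≤ 0 :=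
        mul_nonpos_of_nonneg_of_nonpos (mul_nonneg (by linarith) hP1) hD
      have h2 : 0 ≤ E * F := mul_nonneg hE hF
      linarith
    · push Not at hD
      have h1 : 0 < 1 - γ := by
        by_contra hc
        push Not at hc
        have : (1 - γ) * T ≤ 0 := mul_nonpos_of_nonpos_of_nonneg hc hT
        linarith
      have h2 : T - K - γ * T ≤ (1 - γ) * (T - K) := by nlinarith [mul_nonneg hγ hK]
      have h3 : 0 < T - K := by
        by_contra hc
        push Not at hc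
        have : (1 - γ) * (T - K) ≤ 0 := mul_nonpos_of_nonneg_of_nonpos h1.le hc
        linarith
      calc am * (P - 1) * (T - K - γ * T) ≤ am * (P - 1) * ((1 - γ) * (T - K)) :=
            mul_le_mul_of_nonneg_left h2 (mul_nonneg (by linarith) hP1)
        _ = (am * (1 - γ)) * ((P - 1) * (T - K)) := by ring
        _ ≤ 1 * ((P - 1) * (T - K)) :=
            mul_le_mul_of_nonneg_right hamγ (mul_nonneg hP1 h3.le)
        _ ≤ E * F := by linarith
  have hZ : a * (P - 1) * (a * (P - 1) - ae * E - af * F + al * T - al * K - al * γ * T) ≤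
      (a * (P - 1) - ae * E) * (a * (P - 1) - af * F) := by
    have e : (a * (P - 1) - ae * E) * (a * (P - 1) - af * F) -
        a * (P - 1) * (a * (P - 1) - ae * E - af * F + al * T - al * K - al * γ * T) =
        ae * af * (E * F - am * (P - 1) * (T - K - γ * T)) := by
      linear_combination (-(P - 1) * (T - K - γ * T)) * hprod
    have : 0 ≤ ae * af * (E * F - am * (P - 1) * (T - K - γ * T)) :=
      mul_nonneg (mul_nonneg (by linarith) (by linarith)) (by linarith)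
    linarith
  calc S11 * S00 ≤ (a * (P - 1)) * S00 := mul_le_mul_of_nonneg_right h11 h000
    _ ≤ a * (P - 1) * (a * (P - 1) - ae * E - af * F + al * T - al * K - al * γ * T) :=
        mul_le_mul_of_nonneg_left h00 hY
    _ ≤ (a * (P - 1) - ae * E) * (a * (P - 1) - af * F) := hZ
    _ ≤ S10 * S01 := mul_le_mul h10 h01 hv (hu.trans h10)

theorem stmtAbs_of (hG : StmtGrid) (hPush : StmtPush) : StmtAbs := by
  intro α ι κ _ _ t O L Le Lf row col p11 p10 p01 p00 ht hd he hf h11 h10 h01 h00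
  have hw0 : ∀ B : Finset α, 0 ≤ ∏ a ∈ B, t a := fun B => Finset.prod_nonneg (fun a _ => ht a)
  have hc0 : ∀ x, 0 ≤ cellWt t O row col x := cellWt_nonneg t ht O row col
  -- the families
  obtain ⟨Row, hRow⟩ : ∃ Q : Finset α → Prop,
      Q = fun S => S.Nonempty ∧ ∀ x ∈ S, ∀ y ∈ S, row x = row y := ⟨_, rfl⟩
  obtain ⟨Col, hCol⟩ : ∃ Q : Finset α → Prop,
      Q = fun S => S.Nonempty ∧ ∀ x ∈ S, ∀ y ∈ S, col x = col y := ⟨_, rfl⟩
  obtain ⟨One, hOne⟩ : ∃ Q : Finset α → Prop,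
      Q = fun S => S.Nonempty ∧ ∀ x ∈ S, ∀ y ∈ S, (row x, col x) = (row y, col y) := ⟨_, rfl⟩
  obtain ⟨Two, hTwo⟩ : ∃ Q : Finset α → Prop,
      Q = fun S => ∃ x ∈ S, ∃ y ∈ S, row x ≠ row y ∧ col x ≠ col y ∧
        ∀ z ∈ S, (row z = row x ∧ col z = col x) ∨ (row z = row y ∧ col z = col y) := ⟨_, rfl⟩
  obtain ⟨Rg, hRg⟩ : ∃ Q : Finset α → Prop,
      Q = fun S => ∃ g ∈ L \ (Le ∪ Lf), g ∈ S ∧ S ⊆ insert g (Le ∩ Lf) := ⟨_, rfl⟩
  -- sums over `O`
  have sE : (∑ S ∈ O.powerset with Row S, ∏ a ∈ S, t a) =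
      ∑ i : ι, ((∏ k : κ, (1 + cellWt t O row col (i, k))) - 1) := by
    refine (sum_const t O row Row (fun S => by rw [hRow])).trans ?_
    exact Finset.sum_congr rfl (fun i _ => by rw [prod_row])
  have sF : (∑ S ∈ O.powerset with Col S, ∏ a ∈ S, t a) =
      ∑ k : κ, ((∏ i : ι, (1 + cellWt t O row col (i, k))) - 1) := by
    refine (sum_const t O col Col (fun S => by rw [hCol])).trans ?_
    exact Finset.sum_congr rfl (fun k _ => by rw [prod_col])
  have sT : (∑ S ∈ O.powerset with One S, ∏ a ∈ S, t a) = T (cellWt t O row col) := by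
    refine (sum_const t O (fun a => (row a, col a)) One (fun S => by rw [hOne])).trans ?_
    refine Finset.sum_congr rfl (fun x _ => ?_)
    unfold cellWt
    congr 1
    refine Finset.prod_congr ?_ (fun _ _ => rfl)
    ext a
    simp only [mem_filter]
  have sK : (∑ S ∈ O.powerset with Two S, ∏ a ∈ S, t a) = K (cellWt t O row col) := by
    obtain ⟨Q, hQ⟩ : ∃ Q : Finset (ι × κ) → Prop,
      Q = fun W => ∃ x y, gen x y ∧ W = {x, y} := ⟨_, rfl⟩
    rw [← K_eq (cellWt t O row col) Q (fun W => by rw [hQ])]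
    refine Eq.trans ?_ (hPush α ι κ t O row col Q)
    refine Finset.sum_congr ?_ (fun _ _ => rfl)
    ext S
    simp only [mem_filter, mem_powerset, hTwo, hQ]
    refine and_congr_right (fun _ => ?_)
    constructor
    · rintro ⟨x, hx, y, hy, h1, h2, h3⟩
      refine ⟨(row x, col x), (row y, col y), ⟨h1, h2⟩, ?_⟩
      ext z
      simp only [mem_image, mem_insert, mem_singleton]
      constructor
      · rintro ⟨b, hb, rfl⟩
        rcases h3 b hb with ⟨e1, e2⟩ | ⟨e1, e2⟩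
        · exact Or.inl (by rw [e1, e2])
        · exact Or.inr (by rw [e1, e2])
      · rintro (rfl | rfl)
        · exact ⟨x, hx, rfl⟩
        · exact ⟨y, hy, rfl⟩
    · rintro ⟨u, v, ⟨h1, h2⟩, h3⟩
      have hu : u ∈ S.image (fun a => (row a, col a)) := by
        rw [h3]
        simp
      have hv : v ∈ S.image (fun a => (row a, col a)) := by
        rw [h3]
        simp
      obtain ⟨x, hx, rfl⟩ := mem_image.1 hu
      obtain ⟨y, hy, rfl⟩ := mem_image.1 hv
      refine ⟨x, hx, y, hy, h1, h2, fun z hz => ?_⟩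
      have : (row z, col z) ∈ ({(row x, col x), (row y, col y)} : Finset (ι × κ)) := by
        rw [← h3]
        exact mem_image_of_mem (fun a => (row a, col a)) hz
      simp only [mem_insert, mem_singleton, Prod.mk.injEq] at this
      exact this
  -- numbers
  have hgrid := hG ι κ (cellWt t O row col) hc0
  rw [prod_cells, ← sE, ← sF, ← sT, ← sK] at hgrid
  -- the main families, of product form
  have mNe : (∑ B ∈ (O ∪ L).powerset with (B ∩ O).Nonempty, ∏ a ∈ B, t a) =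
      ((∏ a ∈ O, (1 + t a)) - 1) * ∏ a ∈ L, (1 + t a) := by
    rw [sum_prod_form t O L hd (fun B => (B ∩ O).Nonempty) (fun S => S.Nonempty) (fun _ => True)
      (fun B => ⟨fun h => ⟨h, trivial⟩, fun h => h.1⟩), sum_nonempty t O _ (fun _ => Iff.rfl),
      sum_all t L _ (fun _ => trivial)]
  have m2 : (∑ B ∈ (O ∪ L).powerset with (Row (B ∩ O) ∧ B ∩ L ⊆ Le), ∏ a ∈ B, t a) =
      (∑ S ∈ O.powerset with Row S, ∏ a ∈ S, t a) * ∏ a ∈ Le, (1 + t a) := by
    rw [sum_prod_form t O L hd (fun B => Row (B ∩ O) ∧ B ∩ L ⊆ Le) Row (fun S => S ⊆ Le)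
      (fun _ => Iff.rfl), sum_sub t L Le he _ (fun _ => Iff.rfl)]
  have m3 : (∑ B ∈ (O ∪ L).powerset with (Col (B ∩ O) ∧ B ∩ L ⊆ Lf), ∏ a ∈ B, t a) =
      (∑ S ∈ O.powerset with Col S, ∏ a ∈ S, t a) * ∏ a ∈ Lf, (1 + t a) := by
    rw [sum_prod_form t O L hd (fun B => Col (B ∩ O) ∧ B ∩ L ⊆ Lf) Col (fun S => S ⊆ Lf)
      (fun _ => Iff.rfl), sum_sub t L Lf hf _ (fun _ => Iff.rfl)]
  have m23 : (∑ B ∈ (O ∪ L).powerset with (One (B ∩ O) ∧ B ∩ L ⊆ Le ∩ Lf), ∏ a ∈ B, t a) =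
      (∑ S ∈ O.powerset with One S, ∏ a ∈ S, t a) * ∏ a ∈ Le ∩ Lf, (1 + t a) := by
    rw [sum_prod_form t O L hd (fun B => One (B ∩ O) ∧ B ∩ L ⊆ Le ∩ Lf) One
      (fun S => S ⊆ Le ∩ Lf) (fun _ => Iff.rfl),
      sum_sub t L (Le ∩ Lf) (Finset.inter_subset_left.trans he) _ (fun _ => Iff.rfl)]
  have m4 : (∑ B ∈ (O ∪ L).powerset with (Two (B ∩ O) ∧ B ∩ L ⊆ Le ∩ Lf), ∏ a ∈ B, t a) =
      (∑ S ∈ O.powerset with Two S, ∏ a ∈ S, t a) * ∏ a ∈ Le ∩ Lf, (1 + t a) := by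
    rw [sum_prod_form t O L hd (fun B => Two (B ∩ O) ∧ B ∩ L ⊆ Le ∩ Lf) Two
      (fun S => S ⊆ Le ∩ Lf) (fun _ => Iff.rfl),
      sum_sub t L (Le ∩ Lf) (Finset.inter_subset_left.trans he) _ (fun _ => Iff.rfl)]
  have m5 : (∑ B ∈ (O ∪ L).powerset with (One (B ∩ O) ∧ Rg (B ∩ L)), ∏ a ∈ B, t a) =
      (∑ S ∈ O.powerset with One S, ∏ a ∈ S, t a) *
        ((∏ a ∈ Le ∩ Lf, (1 + t a)) * ∑ g ∈ L \ (Le ∪ Lf), t g) := by
    rw [sum_prod_form t O L hd (fun B => One (B ∩ O) ∧ Rg (B ∩ L)) One Rg (fun _ => Iff.rfl),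
      sum_insert t L Le Lf he Rg (fun S => by rw [hRg])]
  -- the estimates
  have nonnegO : ∀ Q : Finset α → Prop, 0 ≤ ∑ S ∈ O.powerset with Q S, ∏ a ∈ S, t a :=
    fun Q => Finset.sum_nonneg (fun S _ => hw0 S)
  have leO : ∀ Q : Finset α → Prop, (∀ S, Q S → S.Nonempty) →
      (∑ S ∈ O.powerset with Q S, ∏ a ∈ S, t a) ≤ (∏ a ∈ O, (1 + t a)) - 1 := by
    intro Q hQ
    rw [← sum_nonempty t O (fun S => S.Nonempty) (fun _ => Iff.rfl)]
    refine Finset.sum_le_sum_of_subset_of_nonneg (fun S hS => ?_) (fun S _ _ => hw0 S)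
    rw [mem_filter] at hS ⊢
    exact ⟨hS.1, hQ S hS.2⟩
  refine final_ineq (∏ a ∈ L, (1 + t a)) (∏ a ∈ Le, (1 + t a)) (∏ a ∈ Lf, (1 + t a))
    (∏ a ∈ Le ∩ Lf, (1 + t a)) (∏ a ∈ L \ (Le ∪ Lf), (1 + t a)) (∑ g ∈ L \ (Le ∪ Lf), t g)
    (∑ S ∈ O.powerset with Row S, ∏ a ∈ S, t a) (∑ S ∈ O.powerset with Col S, ∏ a ∈ S, t a)
    (∑ S ∈ O.powerset with One S, ∏ a ∈ S, t a) (∑ S ∈ O.powerset with Two S, ∏ a ∈ S, t a)
    (∏ a ∈ O, (1 + t a)) _ _ _ _
    (one_le_prod t ht _) (one_le_prod t ht _) (one_le_prod t ht _) (one_le_prod t ht _)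
    (Finset.sum_nonneg (fun a _ => ht a)) (nonnegO _) (nonnegO _) (nonnegO _) (nonnegO _)
    (one_le_prod t ht _) (prod_parts t L Le Lf he hf) (prod_le_prod_sub t ht _ _ he)
    (prod_le_prod_sub t ht _ _ hf) (leO Row (fun S hS => by rw [hRow] at hS; exact hS.1))
    (leO Col (fun S hS => by rw [hCol] at hS; exact hS.1)) (prod_mul_le t ht _) hgrid
    ?_ (Finset.sum_nonneg (fun S _ => hw0 S)) ?_ ?_ ?_
  · -- S11
    have : (∏ a ∈ L, (1 + t a)) * ((∏ a ∈ O, (1 + t a)) - 1) =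
        ((∏ a ∈ O, (1 + t a)) - 1) * ∏ a ∈ L, (1 + t a) := mul_comm _ _
    rw [this, ← mNe]
    refine Finset.sum_le_sum_of_subset_of_nonneg (fun B hB => ?_) (fun S _ _ => hw0 S)
    rw [mem_filter] at hB ⊢
    exact ⟨hB.1, h11 B (mem_powerset.1 hB.1) hB.2⟩
  · -- S00
    have key : (∑ B ∈ (O ∪ L).powerset with p00 B, ∏ a ∈ B, t a) +
        (∑ B ∈ (O ∪ L).powerset with (Row (B ∩ O) ∧ B ∩ L ⊆ Le), ∏ a ∈ B, t a) +
        (∑ B ∈ (O ∪ L).powerset with (Col (B ∩ O) ∧ B ∩ L ⊆ Lf), ∏ a ∈ B, t a) -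
        (∑ B ∈ (O ∪ L).powerset with (One (B ∩ O) ∧ B ∩ L ⊆ Le ∩ Lf), ∏ a ∈ B, t a) +
        (∑ B ∈ (O ∪ L).powerset with (Two (B ∩ O) ∧ B ∩ L ⊆ Le ∩ Lf), ∏ a ∈ B, t a) +
        (∑ B ∈ (O ∪ L).powerset with (One (B ∩ O) ∧ Rg (B ∩ L)), ∏ a ∈ B, t a) ≤
        ∑ B ∈ (O ∪ L).powerset with (B ∩ O).Nonempty, ∏ a ∈ B, t a := by
      simp only [Finset.sum_filter]
      rw [← Finset.sum_add_distrib, ← Finset.sum_add_distrib, ← Finset.sum_sub_distrib,
        ← Finset.sum_add_distrib, ← Finset.sum_add_distrib]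
      refine Finset.sum_le_sum (fun B hB => ?_)
      have hB' := mem_powerset.1 hB
      refine ind_le _ (hw0 B) _ _ _ _ _ _ _ ?_ ?_ ?_ ?_ ?_ ?_ ?_ ?_ ?_ ?_ ?_ ?_ ?_ ?_ ?_
      · intro h
        exact (h00 B hB' h).1
      · rintro h ⟨h1, h2⟩
        rw [hRow] at h1
        exact (h00 B hB' h).2.1 ⟨h1.2, h2⟩
      · rintro h ⟨h1, h2⟩
        rw [hCol] at h1
        exact (h00 B hB' h).2.2.1 ⟨h1.2, h2⟩
      · rintro h ⟨h1, h2⟩
        rw [hTwo] at h1
        obtain ⟨x, hx, y, hy, e1, e2, e3⟩ := h1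
        exact (h00 B hB' h).2.2.2.1 ⟨x, hx, y, hy, e1, e2, e3, h2⟩
      · rintro h ⟨h1, h2⟩
        rw [hOne] at h1
        rw [hRg] at h2
        obtain ⟨g, hg, _, hg2⟩ := h2
        refine (h00 B hB' h).2.2.2.2 ⟨fun x hx y hy => ?_, g, (mem_sdiff.1 hg).1, hg2⟩
        have := h1.2 x hx y hy
        exact ⟨congrArg Prod.fst this, congrArg Prod.snd this⟩
      · rintro ⟨h1, _⟩
        rw [hRow] at h1
        exact h1.1
      · rintro ⟨h1, _⟩
        rw [hCol] at h1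
        exact h1.1
      · rintro ⟨h1, _⟩
        rw [hTwo] at h1
        obtain ⟨x, hx, _⟩ := h1
        exact ⟨x, hx⟩
      · rintro ⟨h1, _⟩
        rw [hOne] at h1
        exact h1.1
      · rintro ⟨h1, h2⟩ ⟨h3, h4⟩
        rw [hRow] at h1
        rw [hCol] at h3
        rw [hOne]
        exact ⟨⟨h1.1, fun x hx y hy => Prod.ext (h1.2 x hx y hy) (h3.2 x hx y hy)⟩,
          Finset.subset_inter h2 h4⟩
      · rintro ⟨h1, _⟩ ⟨h3, _⟩
        rw [hTwo] at h1
        rw [hRow] at h3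
        obtain ⟨x, hx, y, hy, e1, _⟩ := h1
        exact e1 (h3.2 x hx y hy)
      · rintro ⟨h1, _⟩ ⟨h3, _⟩
        rw [hTwo] at h1
        rw [hCol] at h3
        obtain ⟨x, hx, y, hy, _, e1, _⟩ := h1
        exact e1 (h3.2 x hx y hy)
      · rintro ⟨h1, _⟩ ⟨h3, _⟩
        rw [hTwo] at h1
        rw [hOne] at h3
        obtain ⟨x, hx, y, hy, e1, _⟩ := h1
        exact e1 (congrArg Prod.fst (h3.2 x hx y hy))
      · rintro ⟨_, h2⟩ ⟨_, h4⟩
        rw [hRg] at h2
        obtain ⟨g, hg, hg1, _⟩ := h2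
        exact (mem_sdiff.1 hg).2 (mem_union_left _ (h4 hg1))
      · rintro ⟨_, h2⟩ ⟨_, h4⟩
        rw [hRg] at h2
        obtain ⟨g, hg, hg1, _⟩ := h2
        exact (mem_sdiff.1 hg).2 (mem_union_right _ (h4 hg1))
    rw [mNe, m2, m3, m23, m4, m5] at key
    linarith
  · -- S10
    have key : (∑ B ∈ (O ∪ L).powerset with (B ∩ O).Nonempty, ∏ a ∈ B, t a) -
        (∑ B ∈ (O ∪ L).powerset with (Row (B ∩ O) ∧ B ∩ L ⊆ Le), ∏ a ∈ B, t a) ≤
        ∑ B ∈ (O ∪ L).powerset with p10 B, ∏ a ∈ B, t a := by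
      simp only [Finset.sum_filter]
      rw [← Finset.sum_sub_distrib]
      refine Finset.sum_le_sum (fun B hB => ?_)
      have hB' := mem_powerset.1 hB
      have hwB := hw0 B
      by_cases hn : (B ∩ O).Nonempty
      · by_cases h2 : Row (B ∩ O) ∧ B ∩ L ⊆ Le
        · rw [if_pos hn, if_pos h2]
          split_ifs <;> linarith
        · have hp : p10 B := by
            refine h10 B hB' hn (fun hh => h2 ?_)
            rw [hRow]
            exact ⟨⟨hn, hh.1⟩, hh.2⟩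
          rw [if_pos hn, if_neg h2, if_pos hp]
          linarith
      · have h2 : ¬ (Row (B ∩ O) ∧ B ∩ L ⊆ Le) := by
          rintro ⟨h1, _⟩
          rw [hRow] at h1
          exact hn h1.1
        rw [if_neg hn, if_neg h2]
        split_ifs <;> linarith
    rw [mNe, m2] at key
    linarith
  · -- S01
    have key : (∑ B ∈ (O ∪ L).powerset with (B ∩ O).Nonempty, ∏ a ∈ B, t a) -
        (∑ B ∈ (O ∪ L).powerset with (Col (B ∩ O) ∧ B ∩ L ⊆ Lf), ∏ a ∈ B, t a) ≤
        ∑ B ∈ (O ∪ L).powerset with p01 B, ∏ a ∈ B, t a := by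
      simp only [Finset.sum_filter]
      rw [← Finset.sum_sub_distrib]
      refine Finset.sum_le_sum (fun B hB => ?_)
      have hB' := mem_powerset.1 hB
      have hwB := hw0 B
      by_cases hn : (B ∩ O).Nonempty
      · by_cases h2 : Col (B ∩ O) ∧ B ∩ L ⊆ Lf
        · rw [if_pos hn, if_pos h2]
          split_ifs <;> linarith
        · have hp : p01 B := by
            refine h01 B hB' hn (fun hh => h2 ?_)
            rw [hCol]
            exact ⟨⟨hn, hh.1⟩, hh.2⟩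
          rw [if_pos hn, if_neg h2, if_pos hp]
          linarith
      · have h2 : ¬ (Col (B ∩ O) ∧ B ∩ L ⊆ Lf) := by
          rintro ⟨h1, _⟩
          rw [hCol] at h1
          exact hn h1.1
        rw [if_neg hn, if_neg h2]
        split_ifs <;> linarith
    rw [mNe, m3] at key
    linarith

end Pool.Agent.R358.SC
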